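import Pool.Agent.H22.DE.Df

/-!
# Sparse structures and structures of bounded width have no entangled sets (module CV)

`toSt y` : the structure `y` with empty unary relations, in the notation of `Pool/Agent/H17/W/Hi.lean`,
`He.lean`. `ent_to`: `Alike` is `Alk`, `∃ k, Classes x k univ A` is `Fcl`. `noent_of_sparse`:
`Pool.H17.W.Hi.Sparse.not_entangled` (defaults `false`). `noent_of_width`: `Width.not_entangled` (`Hf.lean`).
-/

set_option autoImplicit false

namespace Pool.H22.DE

open Set Function Pool.H22.D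

variable {m : ℕ}

/-- structures with empty unary relations -/
def toSt (y : Mx (Fin m → Bool)) : Pool.H17.W.Hi.St m := (fun i u v => y u v i, fun _ _ => false)

private theorem cv_alk {y : Mx (Fin m → Bool)} {u v w : ℕ} :
    Pool.H17.W.Hi.Alike (toSt y) u v w ↔ Alk y u v w := by
  constructor
  · intro h
    exact ⟨funext fun i => (h i).1, funext fun i => (h i).2⟩
  · intro h i
    exact ⟨congrFun h.1 i, congrFun h.2 i⟩

theorem ent_to {y : Mx (Fin m → Bool)} {S : Set ℕ} (h : Ent y S) :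
    Pool.H17.W.Hi.Entangled (toSt y) S := by
  refine ⟨h.1, fun A hA hi u hu v hv huv => ?_⟩
  obtain ⟨k, T, hTA, -, hT⟩ := hA
  obtain ⟨w, hw, hn⟩ := h.2 A ⟨T, hTA, fun u hu => by
    obtain ⟨v, hv, h1⟩ := hT u hu
    exact ⟨v, hv, fun w hw => cv_alk.1 (h1 w ⟨mem_univ w, hw⟩)⟩⟩ hi u hu v hv huv
  exact ⟨w, hw, fun hc => hn (cv_alk.1 hc)⟩

theorem noent_of_sparse {y : Mx (Fin m → Bool)} (h : Sparse y) (S : Set ℕ) : ¬ Ent y S := by
  intro hS
  refine Pool.H17.W.Hi.Sparse.not_entangled (x := toSt y) ?_ S (ent_to hS)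
  refine ⟨fun _ => false, fun S' hS' => h S' fun u hu v hv huv Y hY huY hvY => ?_⟩
  refine Relation.ReflTransGen.mono ?_ u v (hS' u hu v hv huv Y hY huY hvY)
  rintro b c ⟨hc, hbc, i, hi⟩
  refine ⟨hc, hbc, i, ?_⟩
  rcases hi with hi | hi
  · left
    have h1 : y b c i ≠ false := hi
    simpa using h1
  · right
    have h1 : y c b i ≠ false := hi
    simpa using h1

theorem noent_of_width {y : Mx (Fin m → Bool)} {k : ℕ} (h : Pool.H17.W.Hi.Width (toSt y) k)
    (S : Set ℕ) : ¬ Ent y S :=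
  fun hS => Pool.H17.W.Hi.Width.not_entangled h S (ent_to hS)

end Pool.H22.DE
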