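import Pool.Agent.H22.D.Thm
import Pool.Agent.H17.W.Hf

/-!
# Entangled sets in matrices: definitions

`Ent y S` : the set `S` is entangled in `y` (compare `Entangled` in `Pool/Agent/H17/W/He.lean`).
-/

set_option autoImplicit false

namespace Pool.H22.DE

open Set Function Pool.H22.D

variable {T : Type}

/-- `u` and `v` have the same entries with `w` -/
def Alk (y : Mx T) (u v w : ℕ) : Prop := y u w = y v w ∧ y w u = y w v

/-- the elements of `A` fall into finitely many classes with respect to the elements outside `A` -/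
def Fcl (y : Mx T) (A : Set ℕ) : Prop :=
  ∃ C : Finset ℕ, (C : Set ℕ) ⊆ A ∧ ∀ u ∈ A, ∃ v ∈ C, ∀ w, w ∉ A → Alk y u v w

/-- entangled sets -/
def Ent (y : Mx T) (S : Set ℕ) : Prop :=
  S.Infinite ∧ ∀ A : Set ℕ, Fcl y A → (S \ A).Infinite →
    ∀ u ∈ S ∩ A, ∀ v ∈ S ∩ A, u ≠ v → ∃ w, w ∉ A ∧ ¬ Alk y u v w

/-- pairs of different elements whose entries do not have the default value -/
def Nd (δ : T) (y : Mx T) (u v : ℕ) : Prop := u ≠ v ∧ (y u v ≠ δ ∨ y v u ≠ δ)

/-- only the entries outside of the diagonal matter -/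
theorem ent_congr {y y' : Mx T} (h : ∀ u v, u ≠ v → y u v = y' u v) {S : Set ℕ} (hS : Ent y S) :
    Ent y' S := by
  have h1 : ∀ A : Set ℕ, ∀ u ∈ A, ∀ v ∈ A, ∀ w, w ∉ A → (Alk y u v w ↔ Alk y' u v w) := by
    intro A u hu v hv w hw
    have e1 : u ≠ w := fun h => hw (h ▸ hu)
    have e2 : v ≠ w := fun h => hw (h ▸ hv)
    unfold Alk
    rw [h u w e1, h v w e2, h w u e1.symm, h w v e2.symm]
  refine ⟨hS.1, fun A hA hi u hu v hv huv => ?_⟩
  have hA' : Fcl y A := by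
    obtain ⟨C, hC, hC'⟩ := hA
    refine ⟨C, hC, fun u hu => ?_⟩
    obtain ⟨v, hv, huv⟩ := hC' u hu
    exact ⟨v, hv, fun w hw => (h1 A u hu v (hC hv) w hw).2 (huv w hw)⟩
  obtain ⟨w, hw, hn⟩ := hS.2 A hA' hi u hu v hv huv
  exact ⟨w, hw, fun hc => hn ((h1 A u hu.2 v hv.2 w hw).2 hc)⟩

end Pool.H22.DE
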