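import Pool.Agent.H22.DE.Pth
import Pool.Agent.H5.TS.Thm

/-!
# Graphs in `Cf f` with entangled sets (module EGF)

`exists_entG`: `exists_len` gives `s`; let `x u v = max u v` for `u ≠ v`, `x u u = 0`. `Spm x`: if `u ≠ w` are joined in
the graph of the pairs with entry at most `n` then `u, w ≤ n`; so `V ⊆ {0, .., n}` if it has two elements (take
`Y = ∅`). `mat_mem` (`H5/TS/Thm.lean`) for a labelling `g` (`exists_val` of `D/LabA.lean` with `labG_ok` for the closed
invariant set of the symmetric matrices with zero diagonal). `ent_of_paths`: `s' i` = the point with the label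
`el i`, `r i j = s (x i j)`, `x' i j c` = the point with the label `pt i j c` for `0 < c < r i j`, `el i` for `c = 0`
and `el j` for `c = r i j`; the path from `j` to `i` and the leaves are not needed. Relations: `Ad`.
-/

set_option autoImplicit false

namespace Pool.H22.DE

open Set Function Pool.H22.D Pool.H5.TS Pool.H63.MQ

/-- the matrix of the maxima -/
private def mxx : Mx ℕ := fun u v => if u = v then 0 else max u v

private theorem mxx_symm (u v : ℕ) : mxx u v = mxx v u := by
  unfold mxx
  by_cases h : u = v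
  · rw [if_pos h, if_pos h.symm]
  · rw [if_neg h, if_neg (fun e => h e.symm), max_comm]

private theorem mxx_le {u v n : ℕ} (h : u ≠ v) (hn : mxx u v ≤ n) : u ≤ n ∧ v ≤ n := by
  unfold mxx at hn
  rw [if_neg h] at hn
  exact ⟨(le_max_left _ _).trans hn, (le_max_right _ _).trans hn⟩

private theorem mxx_spm : Spm mxx := by
  intro n V hV
  by_cases h1 : V.card ≤ 1
  · omega
  have hsub : V ⊆ Finset.range (n + 1) := by
    intro u hu
    obtain ⟨w, hw, hwu⟩ : ∃ w ∈ V, w ≠ u := by
      by_contra hcon
      push Not at hcon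
      apply h1
      rw [Finset.card_le_one]
      intro a ha b hb
      rw [hcon a ha, hcon b hb]
    have h2 := hV u hu w hw hwu.symm ∅ (by rw [Finset.card_empty]; exact Nat.zero_le _)
      (Finset.notMem_empty _) (Finset.notMem_empty _)
    rcases Relation.ReflTransGen.cases_head h2 with h3 | ⟨c, ⟨-, h3, h4⟩, -⟩
    · exact absurd h3.symm hwu
    · rw [Finset.mem_range]
      have := (mxx_le h3 h4).1
      omega
  have h2 := Finset.card_le_card hsub
  rwa [Finset.card_range] at h2

private theorem zero_closed : IsClosed {x : Mx ℕ | ∀ u, x u u = 0} := by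
  have h : {x : Mx ℕ | ∀ u, x u u = 0} = ⋂ u, {x : Mx ℕ | x u u = 0} := by
    ext x
    simp
  rw [h]
  refine isClosed_iInter fun u => ?_
  have hc : Continuous fun x : Mx ℕ => x u u := (continuous_apply u).comp (continuous_apply u)
  exact isClosed_eq hc continuous_const

private theorem ok0 {s : ℕ → ℕ} (hs : StrictMono s) (h0 : 4 ≤ s 0) : (labG s).Ok {x : Mx ℕ | ∀ u, x u u = 0} := by
  refine labG_ok hs h0 ?_ ?_ fun x hx => hx
  · letI : MeasurableSpace (Mx ℕ) := borel _
    haveI : BorelSpace (Mx ℕ) := ⟨rfl⟩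
    exact zero_closed.measurableSet
  · rintro x y ⟨σ, h⟩ hx u
    have h1 := h (σ.symm u) (σ.symm u)
    rw [Equiv.apply_symm_apply] at h1
    have h2 := hx (σ.symm u)
    first
    | exact h1.symm.trans h2
    | exact h1.trans h2

/-- the labels on the paths -/
private def gl (s : ℕ → ℕ) (i j c : ℕ) : Lb :=
  if c = 0 then .el i else if c = s (mxx i j) then .el j else .pt i j c

private theorem gl_inner {s : ℕ → ℕ} {i j c : ℕ} (h0 : 0 < c) (hc : c < s (mxx i j)) : gl s i j c = .pt i j c := by
  unfold gl
  rw [if_neg (by omega), if_neg (by omega)]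

theorem exists_entG {f : ℕ → ℕ} (hf : Filter.Tendsto f Filter.atTop Filter.atTop) :
    ∃ y ∈ Cf f, ∃ S, Ent y S := by
  classical
  obtain ⟨s, hs, h0, hfs⟩ := exists_len hf
  have hs4 : ∀ i, 4 ≤ s i := fun i => h0.trans (hs.monotone (Nat.zero_le i))
  have hd : mxx ∈ {x : Mx ℕ | ∀ u, x u u = 0} := fun u => if_pos rfl
  obtain ⟨g, hg⟩ := exists_val (ok0 hs h0) hd
  refine ⟨(labG s).mat mxx g, mat_mem hs h0 hfs mxx_symm mxx_spm hg, ?_⟩
  have hpos : ∀ q : Lb, ∃ n, Prs s mxx q → g n = q := by
    intro q
    by_cases hq : Prs s mxx q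
    · have h1 := hg q
      have h2 : ((labG s).N mxx q : ℕ∞) = 1 := by
        show ((if Prs s mxx q then 1 else 0 : ℕ) : ℕ∞) = 1
        rw [if_pos hq]
        rfl
      rw [h2] at h1
      have h3 : {n | g n = q}.Nonempty := by
        rw [Set.nonempty_iff_ne_empty]
        intro h4
        rw [h4, encard_empty] at h1
        exact zero_ne_one h1
      obtain ⟨n, hn⟩ := h3
      exact ⟨n, fun _ => hn⟩
    · exact ⟨0, fun h => absurd h hq⟩
  choose pos hpos using hpos
  have hne : (fun _ => true : Fin 1 → Bool) ≠ fun _ => false := by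
    intro h
    have := congrFun h 0
    exact Bool.noConfusion this
  have hnd : ∀ n n' : ℕ, Nd (fun _ => false : Fin 1 → Bool) ((labG s).mat mxx g) n n' ↔
      n ≠ n' ∧ Ad s mxx (g n) (g n') := by
    have hent : ∀ n n' : ℕ, n ≠ n' → ((labG s).mat mxx g n n' ≠ (fun _ => false : Fin 1 → Bool) ↔
        Ad s mxx (g n) (g n')) := by
      intro n n' hn
      have e : (labG s).mat mxx g n n' = fun _ => decide (Ad s mxx (g n) (g n')) := if_neg hn
      rw [e]
      by_cases h : Ad s mxx (g n) (g n')
      · simp only [h, decide_true, ne_eq, iff_true]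
        exact hne
      · simp only [h, decide_false, ne_eq, not_true_eq_false]
    intro n n'
    constructor
    · rintro ⟨hn, h | h⟩
      · exact ⟨hn, (hent n n' hn).1 h⟩
      · exact ⟨hn, ((hent n' n hn.symm).1 h).symm⟩
    · rintro ⟨hn, h⟩
      exact ⟨hn, Or.inl ((hent n n' hn).2 h)⟩
  have hel : ∀ k, g (pos (.el k)) = .el k := fun k => hpos _ trivial
  have hvl : ∀ i j c, i < j → c ≤ s (mxx i j) → Prs s mxx (gl s i j c) := by
    intro i j c hij hc
    unfold gl
    split_ifs with h1 h2
    · trivial
    · trivial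
    · exact ⟨by omega, by omega, by omega⟩
  have hP : ∀ i j c, i < j → c ≤ s (mxx i j) → g (pos (gl s i j c)) = gl s i j c :=
    fun i j c hij hc => hpos _ (hvl i j c hij hc)
  refine ⟨range fun i => pos (.el i), ent_of_paths (fun _ => false) (r := fun i j => s (mxx i j))
    (x := fun i j c => pos (gl s i j c)) ?_ (fun i j _ => by have := hs4 (mxx i j); omega) ?_ ?_ ?_ ?_ ?_⟩
  · intro i j hij
    have h1 : g (pos (.el i)) = g (pos (.el j)) := congrArg g hij
    rw [hel, hel] at h1
    injection h1
  · intro i j _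
    rfl
  · intro i j _
    show pos (gl s i j (s (mxx i j))) = pos (.el j)
    congr 1
    unfold gl
    have := hs4 (mxx i j)
    rw [if_neg (by omega), if_pos rfl]
  · intro i j c hij hc
    have h4 := hs4 (mxx i j)
    change Nd _ _ (pos (gl s i j c)) (pos (gl s i j (c + 1)))
    rw [hnd, hP i j c hij hc.le, hP i j (c + 1) hij hc]
    have key : gl s i j c ≠ gl s i j (c + 1) ∧ Ad s mxx (gl s i j c) (gl s i j (c + 1)) := by
      rcases Nat.eq_zero_or_pos c with h1 | h1
      · subst h1
        have e1 : gl s i j 0 = .el i := rfl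
        have e2 : gl s i j (0 + 1) = .pt i j 1 := gl_inner (by omega) (by omega)
        rw [e1, e2]
        exact ⟨by simp, Or.inl ⟨rfl, rfl⟩⟩
      · have e1 : gl s i j c = .pt i j c := gl_inner h1 hc
        by_cases h2 : c + 1 = s (mxx i j)
        · have e2 : gl s i j (c + 1) = .el j := by
            unfold gl
            rw [if_neg (by omega), if_pos h2]
          rw [e1, e2]
          exact ⟨by simp, Or.inl ⟨rfl, h2⟩⟩
        · have e2 : gl s i j (c + 1) = .pt i j (c + 1) := gl_inner (by omega) (by omega)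
          rw [e1, e2]
          refine ⟨fun h => ?_, Or.inl ⟨rfl, rfl, rfl⟩⟩
          have h3 : c = c + 1 := by injection h
          omega
    refine ⟨fun h => key.1 ?_, key.2⟩
    have h3 := congrArg g h
    rwa [hP i j c hij hc.le, hP i j (c + 1) hij hc] at h3
  · intro i j c i' j' c' hij hij' hne' h0' hc h0'' hc'
    change pos (gl s i j c) ≠ pos (gl s i' j' c') ∧ ¬ Nd _ _ (pos (gl s i j c)) (pos (gl s i' j' c'))
    have e1 : gl s i j c = .pt i j c := gl_inner h0' hc
    have e2 : gl s i' j' c' = .pt i' j' c' := gl_inner h0'' hc'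
    have g1 := hP i j c hij (Nat.le_of_lt hc)
    have g2 := hP i' j' c' hij' (Nat.le_of_lt hc')
    constructor
    · intro h
      have h3 := congrArg g h
      rw [g1, g2, e1, e2] at h3
      injection h3 with h4 h5 h6
      exact hne' (by rw [h4, h5])
    · rw [hnd, g1, g2, e1, e2]
      rintro ⟨-, h | h⟩
      · exact hne' (by rw [h.1, h.2.1])
      · exact hne' (by rw [h.1, h.2.1])
  · intro i j c k hij h0' hc
    change pos (gl s i j c) ≠ pos (.el k) ∧ (k ≠ i → k ≠ j → ¬ Nd _ _ (pos (gl s i j c)) (pos (.el k)))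
    have e1 : gl s i j c = .pt i j c := gl_inner h0' hc
    have g1 := hP i j c hij (Nat.le_of_lt hc)
    constructor
    · intro h
      have h3 := congrArg g h
      rw [g1, e1, hel] at h3
      exact Lb.noConfusion h3
    · intro hki hkj
      rw [hnd, g1, e1, hel]
      rintro ⟨-, h | h⟩
      · exact hkj h.1.symm
      · exact hki h.1

end Pool.H22.DE
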