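import Pool.Agent.H22.DE.Pth

/-!
# Coded structures with entangled sets (module EWD)

`exists_entW`: let `x : Mx ℕ` have the elements `2 i` (colour `0`) and `2 b + 1` (colour `1`), and for `u ≠ v` let
`x u v = 1` iff `u = 2 b + 1`, `v = 2 i`, `(Nat.unpair b).1 < (Nat.unpair b).2` and `i ∈ {(unpair b).1, (unpair b).2}`, and `0`
otherwise; `x ∈ Grd` (`rk 1 = 1`, `rk 0 = 0`). `exists_val` (`LabA.lean`, with `labW_ok`) gives `g`. Let `s i` be the point
with the label `el (2 i)`; for `i < j`, `b = 2 * Nat.pair i j + 1`, `r i j = 2 * ℓ`, the path goes through the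
points with the labels `el (2 i)`, `pt b (2 i) (ℓ - 1), .., pt b (2 i) 1`, `el b`, `pt b (2 j) 1, .., pt b (2 j) (ℓ - 1)`,
`el (2 j)`. `ent_of_paths` with the default `fun _ => false`: two different points are related iff `stp` of their
labels is not `none` in one direction (`adj_iff`, `Wa.lean`; `Adj` and `Nd` are the same).
-/

set_option autoImplicit false

namespace Pool.H22.DE

open Set Function Pool.H22.D

variable {m ℓ : ℕ} {w : ℕ → Ltr m}

/-- the coloured graph: tuples `2 b + 1` for the pairs `b` of elements `2 i` -/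
private def xw : Mx ℕ := fun u v =>
  if u = v then u % 2
  else if u % 2 = 1 ∧ v % 2 = 0 ∧ (Nat.unpair (u / 2)).1 < (Nat.unpair (u / 2)).2 ∧
      (v / 2 = (Nat.unpair (u / 2)).1 ∨ v / 2 = (Nat.unpair (u / 2)).2) then 1 else 0

private theorem xw_grd : xw ∈ Grd := by
  refine ⟨fun u v huv => ?_, fun u v huv h => ?_⟩
  · unfold xw
    rw [if_neg huv]
    split_ifs <;> omega
  · unfold xw at h ⊢
    rw [if_neg huv] at h
    rw [if_pos rfl, if_pos rfl]
    split_ifs at h with h1
    rw [h1.1, h1.2.1]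
    rfl

/-- the label of the tuple of `i`, `j` -/
private def bb (i j : ℕ) : ℕ := 2 * Nat.pair i j + 1

private theorem bb_half (i j : ℕ) : bb i j / 2 = Nat.pair i j := by
  unfold bb
  omega

private theorem bb_inj {i j i' j' : ℕ} (h : bb i j = bb i' j') : (i, j) = (i', j') := by
  unfold bb at h
  have h1 : Nat.pair i j = Nat.pair i' j' := by omega
  have h2 := congrArg Nat.unpair h1
  rwa [Nat.unpair_pair, Nat.unpair_pair] at h2

private theorem xw_one {i j k : ℕ} (hij : i < j) (hk : k = i ∨ k = j) : bb i j ≠ 2 * k ∧ xw (bb i j) (2 * k) = 1 := by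
  have h1 : bb i j ≠ 2 * k := by
    unfold bb
    omega
  refine ⟨h1, ?_⟩
  unfold xw
  rw [if_neg h1, if_pos]
  rw [bb_half, Nat.unpair_pair]
  refine ⟨by unfold bb; omega, by omega, hij, ?_⟩
  have e : 2 * k / 2 = k := by omega
  rw [e]
  exact hk

/-- the labels on the path from `2 i` to `2 j` -/
private def pl (ℓ i j c : ℕ) : Qw :=
  if c = 0 then .el (2 * i)
  else if c < ℓ then .pt (bb i j) (2 * i) (ℓ - c)
  else if c = ℓ then .el (bb i j)
  else if c = 2 * ℓ then .el (2 * j)
  else .pt (bb i j) (2 * j) (c - ℓ)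

private theorem pl_vl {i j c : ℕ} (hij : i < j) (hc : c ≤ 2 * ℓ) : Vl ℓ xw (pl ℓ i j c) := by
  unfold pl
  split_ifs with h1 h2 h3 h4
  · trivial
  · exact ⟨(xw_one hij (Or.inl rfl)).1, (xw_one hij (Or.inl rfl)).2, by omega, by omega⟩
  · trivial
  · trivial
  · exact ⟨(xw_one hij (Or.inr rfl)).1, (xw_one hij (Or.inr rfl)).2, by omega, by omega⟩

private theorem pl_lf (i j c v : ℕ) : pl ℓ i j c ≠ .lf v := by
  unfold pl
  split_ifs <;> simp

private theorem pl_step {i j c : ℕ} (hℓ : 2 ≤ ℓ) (hc : c < 2 * ℓ) :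
    stp ℓ (pl ℓ i j c) (pl ℓ i j (c + 1)) ≠ none ∨ stp ℓ (pl ℓ i j (c + 1)) (pl ℓ i j c) ≠ none := by
  rcases Nat.eq_zero_or_pos c with h0 | h0
  · right
    subst h0
    have e1 : pl ℓ i j 0 = .el (2 * i) := by
      unfold pl
      rw [if_pos rfl]
    have e2 : pl ℓ i j (0 + 1) = .pt (bb i j) (2 * i) (ℓ - 1) := by
      unfold pl
      rw [if_neg (by omega), if_pos (by omega)]
    rw [e1, e2]
    simp only [stp]
    rw [if_pos ⟨trivial, by omega⟩]
    simp
  rcases lt_trichotomy (c + 1) ℓ with h1 | h1 | h1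
  · right
    have e1 : pl ℓ i j c = .pt (bb i j) (2 * i) (ℓ - c) := by
      unfold pl
      rw [if_neg (by omega), if_pos (by omega)]
    have e2 : pl ℓ i j (c + 1) = .pt (bb i j) (2 * i) (ℓ - (c + 1)) := by
      unfold pl
      rw [if_neg (by omega), if_pos (by omega)]
    rw [e1, e2]
    simp only [stp]
    rw [if_pos ⟨trivial, trivial, by omega⟩]
    simp
  · right
    have e1 : pl ℓ i j c = .pt (bb i j) (2 * i) (ℓ - c) := by
      unfold pl
      rw [if_neg (by omega), if_pos (by omega)]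
    have e2 : pl ℓ i j (c + 1) = .el (bb i j) := by
      unfold pl
      rw [if_neg (by omega), if_neg (by omega), if_pos h1]
    rw [e1, e2]
    simp only [stp]
    rw [if_pos ⟨trivial, by omega⟩]
    simp
  · rcases Nat.lt_or_ge ℓ c with h2 | h2
    · have e1 : pl ℓ i j c = .pt (bb i j) (2 * j) (c - ℓ) := by
        unfold pl
        rw [if_neg (by omega), if_neg (by omega), if_neg (by omega), if_neg (by omega)]
      left
      rcases eq_or_ne (c + 1) (2 * ℓ) with h3 | h3
      · have e2 : pl ℓ i j (c + 1) = .el (2 * j) := by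
          unfold pl
          rw [if_neg (by omega), if_neg (by omega), if_neg (by omega), if_pos h3]
        rw [e1, e2]
        simp only [stp]
        rw [if_pos ⟨trivial, by omega⟩]
        simp
      · have e2 : pl ℓ i j (c + 1) = .pt (bb i j) (2 * j) (c + 1 - ℓ) := by
          unfold pl
          rw [if_neg (by omega), if_neg (by omega), if_neg (by omega), if_neg h3]
        rw [e1, e2]
        simp only [stp]
        rw [if_pos ⟨trivial, trivial, by omega⟩]
        simp
    · left
      have h3 : c = ℓ := by omega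
      subst h3
      have e1 : pl c i j c = .el (bb i j) := by
        unfold pl
        rw [if_neg (by omega), if_neg (by omega), if_pos rfl]
      have e2 : pl c i j (c + 1) = .pt (bb i j) (2 * j) (c + 1 - c) := by
        unfold pl
        rw [if_neg (by omega), if_neg (by omega), if_neg (by omega), if_neg (by omega)]
      rw [e1, e2]
      simp only [stp]
      rw [if_pos ⟨trivial, by omega⟩]
      simp

/-- labels of the inner points -/
private def IL (i j : ℕ) (q : Qw) : Prop :=
  q = .el (bb i j) ∨ ∃ k c, (k = i ∨ k = j) ∧ q = .pt (bb i j) (2 * k) c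

private theorem pl_il {i j c : ℕ} (h0 : 0 < c) (hc : c < 2 * ℓ) : IL i j (pl ℓ i j c) := by
  unfold pl
  rw [if_neg (by omega)]
  split_ifs with h1 h2 h3
  · exact Or.inr ⟨i, _, Or.inl rfl, rfl⟩
  · exact Or.inl rfl
  · omega
  · exact Or.inr ⟨j, _, Or.inr rfl, rfl⟩

private theorem il_pp {i j i' j' : ℕ} {q q' : Qw} (hne : (i, j) ≠ (i', j')) (h : IL i j q) (h' : IL i' j' q') :
    q ≠ q' ∧ stp ℓ q q' = none ∧ stp ℓ q' q = none := by
  have hb : bb i j ≠ bb i' j' := fun h => hne (bb_inj h)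
  have hb' : bb i' j' ≠ bb i j := hb.symm
  have o1 : ∀ k, 2 * k ≠ bb i j := fun k => by unfold bb; omega
  have o2 : ∀ k, 2 * k ≠ bb i' j' := fun k => by unfold bb; omega
  rcases h with rfl | ⟨k, c, hk, rfl⟩ <;> rcases h' with rfl | ⟨k', c', hk', rfl⟩
  · simp [stp, hb]
  · simp [stp, hb, o1]
  · simp [stp, hb', o2]
  · simp [stp, hb, hb']

private theorem il_ps {i j k : ℕ} {q : Qw} (h : IL i j q) : q ≠ .el (2 * k) ∧
    (k ≠ i → k ≠ j → stp ℓ q (.el (2 * k)) = none ∧ stp ℓ (.el (2 * k)) q = none) := by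
  have o1 : ∀ k, 2 * k ≠ bb i j := fun k => by unfold bb; omega
  have o2 : ∀ k, bb i j ≠ 2 * k := fun k => (o1 k).symm
  rcases h with rfl | ⟨k', c, hk, rfl⟩
  · simp [stp, o2]
  · refine ⟨by simp, fun hi hj => ?_⟩
    have h1 : 2 * k' ≠ 2 * k := by
      rcases hk with rfl | rfl <;> omega
    simp [stp, h1, o1]

private theorem nd_adj {y : Mx (Fin m → Bool)} {u v : ℕ} : Nd (fun _ => false) y u v ↔ Adj y u v := by
  unfold Nd Adj
  refine and_congr_right fun _ => ?_
  constructor
  · rintro (h | h)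
    · by_contra hc
      push Not at hc
      exact h (funext fun i => by simpa using (hc i).1)
    · by_contra hc
      push Not at hc
      exact h (funext fun i => by simpa using (hc i).2)
  · rintro ⟨i, hi | hi⟩
    · left
      intro h
      rw [h] at hi
      exact absurd hi (by simp)
    · right
      intro h
      rw [h] at hi
      exact absurd hi (by simp)

theorem exists_entW (hw : ∀ j < ℓ, Nz (w j)) (hℓ : 2 ≤ ℓ) :
    ∃ x ∈ Grd, ∃ g, (labW ℓ w).Val x g ∧ ∃ S, Ent ((labW ℓ w).mat x g) S := by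
  classical
  obtain ⟨g, hg⟩ := exists_val (labW_ok hw hℓ) xw_grd
  refine ⟨xw, xw_grd, g, hg, ?_⟩
  have hP : ∀ q : Qw, ∃ n, Vl ℓ xw q → g n = q := by
    intro q
    by_cases hq : Vl ℓ xw q
    · obtain ⟨n, hn⟩ := exists_pt hg hq
      exact ⟨n, fun _ => hn⟩
    · exact ⟨0, fun h => absurd h hq⟩
  choose P hP using hP
  have hs : ∀ i, g (P (.el (2 * i))) = .el (2 * i) := fun i => hP _ trivial
  have hq : ∀ {i j c : ℕ}, i < j → c ≤ 2 * ℓ → g (P (pl ℓ i j c)) = pl ℓ i j c :=
    fun hij hc => hP _ (pl_vl hij hc)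
  have hNd : ∀ n n', Nd (fun _ => false) ((labW ℓ w).mat xw g) n n' →
      stp ℓ (g n) (g n') ≠ none ∨ stp ℓ (g n') (g n) ≠ none := by
    intro n n' h
    exact (adj_iff hw hℓ hg h.1).1 (nd_adj.1 h)
  refine ⟨range fun i => P (.el (2 * i)), ?_⟩
  refine ent_of_paths (fun _ => false) (s := fun i => P (.el (2 * i))) (r := fun _ _ => 2 * ℓ)
    (x := fun i j c => P (pl ℓ i j c)) ?_ ?_ ?_ ?_ ?_ ?_ ?_
  · intro i i' h
    have h1 := congrArg g h
    simp only at h1
    rw [hs, hs] at h1
    injection h1 with h2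
    omega
  · intro i j _
    omega
  · intro i j _
    have e : pl ℓ i j 0 = .el (2 * i) := by
      unfold pl
      rw [if_pos rfl]
    simp only [e]
  · intro i j _
    have e : pl ℓ i j (2 * ℓ) = .el (2 * j) := by
      unfold pl
      rw [if_neg (by omega), if_neg (by omega), if_neg (by omega), if_pos rfl]
    simp only [e]
  · intro i j c hij hc
    have h1 := hq (c := c) hij hc.le
    have h2 := hq (c := c + 1) hij hc
    have h3 := pl_step (i := i) (j := j) hℓ hc
    have hne : P (pl ℓ i j c) ≠ P (pl ℓ i j (c + 1)) := by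
      intro h4
      have h5 : pl ℓ i j c = pl ℓ i j (c + 1) := by rw [← h1, ← h2, h4]
      rw [← h5] at h3
      have h6 : stp ℓ (pl ℓ i j c) (pl ℓ i j c) = none := by
        cases pl ℓ i j c <;> simp [stp]
      rcases h3 with h3 | h3 <;> exact h3 h6
    rw [nd_adj, adj_iff hw hℓ hg hne, h1, h2]
    exact h3
  · intro i j c i' j' c' hij hij' hne hc hc1 hc' hc1'
    have h1 := hq (c := c) hij hc1.le
    have h2 := hq (c := c') hij' hc1'.le
    have h3 := il_pp (ℓ := ℓ) hne (pl_il (ℓ := ℓ) hc hc1) (pl_il (ℓ := ℓ) hc' hc1')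
    refine ⟨fun h4 => h3.1 ?_, fun h4 => ?_⟩
    · rw [← h1, ← h2, h4]
    · have h5 := hNd _ _ h4
      rw [h1, h2] at h5
      rcases h5 with h5 | h5
      · exact h5 h3.2.1
      · exact h5 h3.2.2
  · intro i j c k hij hc hc1
    have h1 := hq (c := c) hij hc1.le
    have h3 := il_ps (ℓ := ℓ) (k := k) (pl_il (ℓ := ℓ) (i := i) (j := j) hc hc1)
    refine ⟨fun h4 => h3.1 ?_, fun hi hj h4 => ?_⟩
    · rw [← h1, ← hs k, h4]
    · have h5 := hNd _ _ h4
      rw [h1, hs] at h5
      rcases h5 with h5 | h5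
      · exact h5 (h3.2 hi hj).1
      · exact h5 (h3.2 hi hj).2

end Pool.H22.DE
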