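import Pool.Agent.H22.DE.Cv
import Pool.Agent.H22.DE.Wd
import Pool.Agent.H22.D.Gr

/-!
# Monotone classes without entangled sets (module KDA)

`fb_noent`: `noent_of_sparse`; conversely if `y ∈ Fb Sy F` is not sparse: `k`, `exists_pers`, `ℓ ≥ 2`, letters not empty as
in `dichotomy` (`D/Thm.lean`), `mem_fb` for the coded structure of `exists_entW`. `gf_noent`: if some `H ∈ F` is contained in
`Stars` then all members are sparse (as in `graph_dichotomy`, `D/Gr.lean`); otherwise `stars_pers` and `mem_fb` as there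
(`wg`; the private lemmas of `Gr.lean` may be copied), `exists_entW`.
-/

set_option autoImplicit false

namespace Pool.H22.DE

open Set Function Pool.H22.D

variable {m : ℕ}

theorem fb_noent (Sy : Set (Fin m)) {F : Set (FS m)} (hF : F.Finite) :
    (∀ y ∈ Fb Sy F, Sparse y) ↔ ∀ y ∈ Fb Sy F, ∀ S, ¬ Ent y S := by
  constructor
  · intro h y hy S
    exact noent_of_sparse (h y hy) S
  · intro h
    by_contra hall
    push Not at hall
    obtain ⟨y, hy, hys⟩ := hall
    obtain ⟨k, hk⟩ : ∃ k : ℕ, ∀ H ∈ F, H.1 ≤ k := by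
      obtain ⟨k, hk⟩ := (hF.image Sigma.fst).bddAbove
      exact ⟨k, fun H hH => hk (mem_image_of_mem Sigma.fst hH)⟩
    obtain ⟨ℓ, w, hP, hlet⟩ := exists_pers hys (k + 1)
    have hlen := hP.len
    have hnz : ∀ j < ℓ, Nz (w j) := by
      intro j hj
      obtain ⟨u, v, ⟨-, i, hi⟩, hw⟩ := hlet j hj
      rw [hw]
      exact ⟨i, hi⟩
    obtain ⟨x, -, g, hg, S, hS⟩ := exists_entW hnz (by omega)
    refine h _ (mem_fb (Sy := Sy) hP (fun j hj i hi => ?_)
      (fun H hH => ⟨(hk H hH).trans (Nat.le_succ k), hy.2 H hH⟩) hg) S hS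
    obtain ⟨u, v, -, hw⟩ := hlet j hj
    rw [hw]
    exact hy.1 i hi u v

open Classical in
/-- the structure of a finite graph -/
private noncomputable def toFS (H : Σ n : ℕ, SimpleGraph (Fin n)) : FS 1 :=
  ⟨H.1, fun u v _ => decide (H.2.Adj u v)⟩

/-- the loop -/
private def loop1 : FS 1 := ⟨1, fun _ _ _ => true⟩

private lemma occ_toFS {α : Type} {H : Σ n : ℕ, SimpleGraph (Fin n)} {y : α → α → Fin 1 → Bool}
    {G : SimpleGraph α} (hy : ∀ u v, y u v 0 = true ↔ G.Adj u v) :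
    Occ (toFS H) y ↔ H.2.IsContained G := by
  constructor
  · rintro ⟨f, hf, h⟩
    refine ⟨⟨⟨f, ?_⟩, hf⟩⟩
    intro u v huv
    exact (hy _ _).1 (h u v 0 (@decide_eq_true _ (Classical.propDecidable _) huv))
  · rintro ⟨f⟩
    refine ⟨f, f.injective, ?_⟩
    intro u v i huv
    have h1 : H.2.Adj u v := @of_decide_eq_true _ (Classical.propDecidable _) huv
    have hi : i = 0 := Subsingleton.elim _ _
    subst hi
    exact (hy _ _).2 (f.toHom.map_adj h1)

private lemma occ_loop {α : Type} {y : α → α → Fin 1 → Bool} :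
    Occ loop1 y ↔ ∃ u, y u u 0 = true := by
  constructor
  · rintro ⟨f, -, h⟩
    exact ⟨f (0 : Fin 1), h (0 : Fin 1) (0 : Fin 1) 0 rfl⟩
  · rintro ⟨u, hu⟩
    refine ⟨fun _ => u, ?_, ?_⟩
    · intro a b _
      exact Subsingleton.elim (α := Fin 1) a b
    · intro a b i _
      have hi : i = 0 := Subsingleton.elim _ _
      subst hi
      exact hu

private lemma gf_eq (F : Set (Σ n : ℕ, SimpleGraph (Fin n))) :
    Gf F = Fb (univ : Set (Fin 1)) (insert loop1 (toFS '' F)) := by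
  ext y
  constructor
  · rintro ⟨G, hG, hF⟩
    refine ⟨?_, ?_⟩
    · intro i _ u v
      have hi : i = 0 := Subsingleton.elim _ _
      subst hi
      rw [Bool.eq_iff_iff, hG, hG]
      exact G.adj_comm u v
    · intro H hH
      rcases hH with rfl | ⟨H, hH, rfl⟩
      · rw [occ_loop]
        rintro ⟨u, hu⟩
        exact G.loopless.irrefl u ((hG u u).1 hu)
      · rw [occ_toFS hG]
        exact hF H hH
  · rintro ⟨hs, hF⟩
    have hl : ∀ u, ¬ y u u 0 = true := by
      intro u hu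
      exact hF loop1 (mem_insert _ _) (occ_loop.2 ⟨u, hu⟩)
    set G : SimpleGraph ℕ := ⟨fun u v => y u v 0 = true, ⟨by
      intro u v huv
      rw [← hs 0 (mem_univ _) u v]
      exact huv⟩, ⟨fun u => hl u⟩⟩ with hG
    refine ⟨G, fun u v => Iff.rfl, ?_⟩
    intro H hH
    rw [← occ_toFS (y := y) (G := G) (fun u v => Iff.rfl)]
    exact hF _ (mem_insert_of_mem _ ⟨H, hH, rfl⟩)

theorem gf_noent {F : Set (Σ n : ℕ, SimpleGraph (Fin n))} (hF : F.Finite) :
    (∃ H ∈ F, H.2.IsContained Stars) ↔ ∀ y ∈ Gf F, ∀ S, ¬ Ent y S := by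
  have hF' : (insert loop1 (toFS '' F)).Finite := (hF.image _).insert _
  constructor
  · rintro ⟨H, hH, hc⟩ y ⟨G, hG, hno⟩ S
    refine noent_of_sparse ?_ S
    by_contra hsp
    refine hno H hH (occ_stars hc hG fun k => ?_)
    obtain ⟨ℓ, w, hp, hw⟩ := exists_pers hsp k
    refine ⟨ℓ, w, hp, fun j hj => ?_⟩
    obtain ⟨u, v, ⟨-, i, hi⟩, hwj⟩ := hw j hj
    have hi0 : i = 0 := Subsingleton.elim _ _
    subst hi0
    have h1 : y u v 0 = true ∧ y v u 0 = true := by
      rcases hi with hi | hi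
      · exact ⟨hi, (hG _ _).2 ((hG _ _).1 hi).symm⟩
      · exact ⟨(hG _ _).2 ((hG _ _).1 hi).symm, hi⟩
    rw [hwj]
    refine Prod.ext ?_ ?_
    · funext i
      have hi0 : i = 0 := Subsingleton.elim _ _
      subst hi0
      exact h1.1
    · funext i
      have hi0 : i = 0 := Subsingleton.elim _ _
      subst hi0
      exact h1.2
  · intro h
    by_contra hno
    push Not at hno
    obtain ⟨k, hk⟩ : ∃ k : ℕ, ∀ H ∈ insert loop1 (toFS '' F), H.1 ≤ k := by
      obtain ⟨k, hk⟩ := (hF'.image (fun H : FS 1 => H.1)).bddAbove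
      exact ⟨k, fun H hH => hk ⟨H, hH, rfl⟩⟩
    obtain ⟨x, -, g, hg, S, hS⟩ := exists_entW (m := 1) (ℓ := 2 * k + 2) (w := wg) (fun _ _ => ⟨0, Or.inl rfl⟩) (by omega)
    refine h _ ?_ S hS
    rw [gf_eq]
    refine mem_fb (Sy := univ) (F := insert loop1 (toFS '' F)) (k := k) (ℓ := 2 * k + 2) (w := wg) (y := stM)
      (stars_pers (by omega)) (fun _ _ _ _ => rfl) ?_ hg
    intro H hH
    refine ⟨hk H hH, ?_⟩
    rcases hH with rfl | ⟨H, hH, rfl⟩
    · rw [occ_loop]
      rintro ⟨u, hu⟩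
      exact Stars.loopless.irrefl u (@of_decide_eq_true _ (Classical.propDecidable _) hu)
    · rw [occ_toFS (G := Stars) (fun u v => @decide_eq_true_iff _ (Classical.propDecidable _))]
      exact not_nonempty_iff.2 (hno H hH)

end Pool.H22.DE
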