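import Pool.Agent.H22.DE.KdA
import Pool.Agent.H22.DI.Res

/-!
# Hereditary classes of graphs without entangled sets (module KDB)

`hg_noent`: `hg_sparse`; otherwise the finite set `F'` of `DI/ResB.lean` (with the cycle `C₄`), `Gf F' ⊆ Hg t F`,
`gf_noent` for `F'`.
-/

set_option autoImplicit false

namespace Pool.H22.DE

open Set Function Pool.H22.D Pool.H22.DI

/-- the cycle with four vertices -/
private def kdbC : SimpleGraph (Fin 4) := SimpleGraph.cycleGraph 4

private theorem kdbC_not_acyclic : ¬ kdbC.IsAcyclic := by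
  intro h
  have h01 : kdbC.Adj 0 1 := (by decide : (SimpleGraph.cycleGraph 4).Adj 0 1)
  have h12 : kdbC.Adj 1 2 := (by decide : (SimpleGraph.cycleGraph 4).Adj 1 2)
  have h23 : kdbC.Adj 2 3 := (by decide : (SimpleGraph.cycleGraph 4).Adj 2 3)
  have h30 : kdbC.Adj 3 0 := (by decide : (SimpleGraph.cycleGraph 4).Adj 3 0)
  refine h (SimpleGraph.Walk.cons h01 (SimpleGraph.Walk.cons h12 (SimpleGraph.Walk.cons h23
    (SimpleGraph.Walk.cons h30 SimpleGraph.Walk.nil)))) ?_
  rw [SimpleGraph.Walk.isCycle_def]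
  refine ⟨?_, ?_, ?_⟩
  · rw [SimpleGraph.Walk.isTrail_def]
    simp only [SimpleGraph.Walk.edges_cons, SimpleGraph.Walk.edges_nil]
    decide
  · simp
  · simp only [SimpleGraph.Walk.support_cons, SimpleGraph.Walk.support_nil, List.tail_cons]
    decide

private theorem kdbC_free : ¬ kdbC.IsContained Stars := by
  rintro ⟨f⟩
  exact kdbC_not_acyclic (stars_acyclic.comap f.toHom f.injective)

private theorem kdb_noK {t : ℕ} (ht : 2 ≤ t) {G : SimpleGraph ℕ} (h : ¬ kdbC.IsContained G) : NoK t G := by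
  intro A B hA hB
  by_contra hcon
  push Not at hcon
  obtain ⟨a, ha, a', ha', haa⟩ := Finset.one_lt_card.1 (show 1 < A.card by omega)
  obtain ⟨b, hb, b', hb', hbb⟩ := Finset.one_lt_card.1 (show 1 < B.card by omega)
  have h1 := hcon a ha b hb
  have h2 := hcon a ha b' hb'
  have h3 := hcon a' ha' b hb
  have h4 := hcon a' ha' b' hb'
  have e1 := h1.ne
  have e2 := h2.ne
  have e3 := h3.ne
  have e4 := h4.ne
  apply h
  refine ⟨⟨⟨![a, b, a', b'], ?_⟩, ?_⟩⟩
  · intro u v huv
    have huv' : (SimpleGraph.cycleGraph 4).Adj u v := huv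
    fin_cases u <;> fin_cases v <;>
      first
        | exact h1
        | exact h2
        | exact h3
        | exact h4
        | exact h1.symm
        | exact h2.symm
        | exact h3.symm
        | exact h4.symm
        | exact absurd huv' (by decide)
  · intro u v huv
    have huv' : (![a, b, a', b'] : Fin 4 → ℕ) u = (![a, b, a', b'] : Fin 4 → ℕ) v := huv
    fin_cases u <;> fin_cases v <;>
      first
        | rfl
        | exact absurd huv' haa
        | exact absurd huv' hbb
        | exact absurd huv' e1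
        | exact absurd huv' e2
        | exact absurd huv' e3
        | exact absurd huv' e4
        | exact absurd huv'.symm haa
        | exact absurd huv'.symm hbb
        | exact absurd huv'.symm e1
        | exact absurd huv'.symm e2
        | exact absurd huv'.symm e3
        | exact absurd huv'.symm e4

private theorem kdb_sub {t : ℕ} (ht : 2 ≤ t) (F : Set (Σ n : ℕ, SimpleGraph (Fin n))) :
    Gf (insert (⟨4, kdbC⟩ : Σ n : ℕ, SimpleGraph (Fin n)) F) ⊆ Hg t F := by
  rintro y ⟨G, hG, hF⟩
  refine ⟨G, hG, kdb_noK ht (hF _ (mem_insert _ _)), ?_⟩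
  rintro H hH ⟨f⟩
  exact hF H (mem_insert_of_mem _ hH) ⟨f.toCopy⟩

theorem hg_noent {t : ℕ} (ht : 2 ≤ t) {F : Set (Σ n : ℕ, SimpleGraph (Fin n))} (hF : F.Finite) :
    (∃ H ∈ F, H.2.IsContained Stars) ↔ ∀ y ∈ Hg t F, ∀ S, ¬ Ent y S := by
  constructor
  · intro h y hy S
    exact noent_of_sparse (hg_sparse hy h) S
  · intro h
    by_contra hcon
    have hF' : (insert (⟨4, kdbC⟩ : Σ n : ℕ, SimpleGraph (Fin n)) F).Finite := hF.insert _
    obtain ⟨H, hH, hc⟩ := (gf_noent hF').2 fun y hy S => h y (kdb_sub ht F hy) S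
    rcases hH with rfl | hH
    · exact kdbC_free hc
    · exact hcon ⟨H, hH, hc⟩

end Pool.H22.DE
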