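import Pool.Agent.H22.DE.KdA
import Pool.Agent.H22.DH.Thm

/-!
# Hereditary classes of structures without entangled sets (module KDC)

`hb_noent`: `noent_of_sparse`; conversely if `y ∈ Hb t F` is not sparse: `exists_pi` with `k` as in `hb_dichotomy`
(`DH/Thm.lean`), `mem_hb`, `exists_entW` and `ent_congr` (`labD` and `labW` are the same outside of the
diagonal).
-/

set_option autoImplicit false

namespace Pool.H22.DE

open Set Function Pool.H22.D Pool.H22.DI Pool.H22.DH

variable {m : ℕ}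

theorem hb_noent (t : ℕ) {F : Set (FS m)} (hF : F.Finite) :
    (∀ y ∈ Hb t F, Sparse y) ↔ ∀ y ∈ Hb t F, ∀ S, ¬ Ent y S := by
  classical
  constructor
  · exact fun h y hy S => noent_of_sparse (h y hy) S
  · intro h y hy
    by_contra hny
    obtain ⟨k₀, hk₀⟩ : ∃ k₀ : ℕ, ∀ H ∈ F, H.1 ≤ k₀ := by
      obtain ⟨b, hb⟩ := (hF.image (fun H : FS m => H.1)).bddAbove
      exact ⟨b, fun H hH => hb (mem_image_of_mem _ hH)⟩
    obtain ⟨k, hk⟩ : ∃ k, k = k₀ + 2 * t + 1 := ⟨_, rfl⟩
    obtain ⟨S, ℓ, w, d, hpi⟩ := exists_pi hy.1 hny k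
    have hlen := hpi.len
    obtain ⟨x, -, g, hg, S', hS'⟩ := exists_entW (w := w) (ℓ := ℓ) (fun j hj => hpi.nz j hj)
      (by omega)
    refine h _ (mem_hb hy hpi (by omega) (fun H hH => (hk₀ H hH).trans (by omega)) hg) S'
      (ent_congr (fun u v huv => ?_) hS')
    show (if u = v then _ else psw ℓ w (g u) (g v)) = (if u = v then _ else psw ℓ w (g u) (g v))
    rw [if_neg huv, if_neg huv]

end Pool.H22.DE
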