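import Pool.Agent.H63.DC.Hfa

/-!
# Seinsche's theorem (module SEI)

`seinsche`: a finite set `F` with at least two elements of a graph `R` without induced path with four vertices
is the disjoint union of two nonempty sets with all or with no edges between them. Induction on the size:
choose `v ∈ F`. If `F \ {v}` has one element: clear. Otherwise by induction `F \ {v} = F₁ ∪ F₂`, by symmetry
(complement: `co_noP`, `Hfa.lean`) without edges between them; let `C` be a connected component of `F \ {v}`
(as an induced graph; there are at least two) . If `v` has no neighbour in some component: this component and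
the rest. Otherwise `v` has a neighbour in every component; if `v` is adjacent to everything: `{v}` and the
rest. Otherwise `v` is not adjacent to some vertex of a component `C`, and by connectivity there are adjacent
`a, b ∈ C`, `v` adjacent to `a`, not to `b`; with a neighbour `c` of `v` in another component `c, v, a, b` is
an induced path.
-/

set_option autoImplicit false

namespace Pool.H22.DE

open Set Function Pool.H22.D Pool.H63.DC

variable {R : ℕ → ℕ → Prop}

private theorem keyStep {R : ℕ → ℕ → Prop} (hs : ∀ u v, R u v → R v u) (hn : NoP R) (v : ℕ)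
    (G G₁ G₂ : Finset ℕ) (hv : v ∉ G) (h1 : G₁.Nonempty) (h2 : G₂.Nonempty) (hd : Disjoint G₁ G₂)
    (hU : G₁ ∪ G₂ = G) (hno : ∀ u ∈ G₁, ∀ w ∈ G₂, ¬ R u w) :
    ∃ F₁ F₂ : Finset ℕ, F₁.Nonempty ∧ F₂.Nonempty ∧ Disjoint F₁ F₂ ∧ F₁ ∪ F₂ = insert v G ∧
      ((∀ u ∈ F₁, ∀ v ∈ F₂, R u v) ∨ ∀ u ∈ F₁, ∀ v ∈ F₂, ¬ R u v) := by
  classical
  by_cases hall : ∀ b ∈ G, R v b
  · refine ⟨{v}, G, Finset.singleton_nonempty v, ?_, ?_, ?_, Or.inl ?_⟩
    · obtain ⟨x, hx⟩ := h1
      exact ⟨x, by rw [← hU]; exact Finset.mem_union_left _ hx⟩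
    · rw [Finset.disjoint_singleton_left]
      exact hv
    · rw [Finset.insert_eq]
    · intro u hu w hw
      rw [Finset.mem_singleton] at hu
      rw [hu]
      exact hall w hw
  · push Not at hall
    obtain ⟨b0, hb0, hvb0⟩ := hall
    let S : ℕ → ℕ → Prop := fun b d => R b d ∧ d ∈ G
    let C : Finset ℕ := G.filter (fun z => Relation.ReflTransGen S b0 z)
    have hCm : ∀ z, z ∈ C ↔ z ∈ G ∧ Relation.ReflTransGen S b0 z := fun z => Finset.mem_filter
    have hb0C : b0 ∈ C := (hCm b0).2 ⟨hb0, Relation.ReflTransGen.refl⟩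
    have hCG : C ⊆ G := Finset.filter_subset _ _
    have hcl : ∀ u ∈ C, ∀ w ∈ G, R u w → w ∈ C := by
      intro u hu w hw huw
      exact (hCm w).2 ⟨hw, Relation.ReflTransGen.tail ((hCm u).1 hu).2 ⟨huw, hw⟩⟩
    have hsep : ∀ u ∈ C, ∀ w ∈ G \ C, ¬ R u w := by
      intro u hu w hw huw
      rw [Finset.mem_sdiff] at hw
      exact hw.2 (hcl u hu w hw.1 huw)
    have hside : ∀ A B : Finset ℕ, (∀ u ∈ A, ∀ w ∈ B, ¬ R u w) → A ∪ B = G → b0 ∈ A →
        ∀ z, Relation.ReflTransGen S b0 z → z ∈ A := by
      intro A B hAB hABG hbA z hz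
      induction hz with
      | refl => exact hbA
      | @tail b d hb hbd ih =>
        have hd : d ∈ A ∪ B := by rw [hABG]; exact hbd.2
        rcases Finset.mem_union.1 hd with h | h
        · exact h
        · exact absurd hbd.1 (hAB b ih d h)
    -- the component is proper
    have hprop : (G \ C).Nonempty := by
      have hb0' : b0 ∈ G₁ ∪ G₂ := by rw [hU]; exact hb0
      rcases Finset.mem_union.1 hb0' with h | h
      · obtain ⟨y, hy⟩ := h2
        refine ⟨y, Finset.mem_sdiff.2 ⟨?_, ?_⟩⟩
        · rw [← hU]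
          exact Finset.mem_union_right _ hy
        · intro hyC
          exact (Finset.disjoint_left.1 hd) (hside G₁ G₂ hno hU h y ((hCm y).1 hyC).2) hy
      · obtain ⟨y, hy⟩ := h1
        refine ⟨y, Finset.mem_sdiff.2 ⟨?_, ?_⟩⟩
        · rw [← hU]
          exact Finset.mem_union_left _ hy
        · intro hyC
          exact (Finset.disjoint_left.1 hd) hy
            (hside G₂ G₁ (fun u hu w hw huw => hno w hw u hu (hs _ _ huw))
              (by rw [Finset.union_comm]; exact hU) h y ((hCm y).1 hyC).2)
    have hvC : v ∉ C := fun h => hv (hCG h)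
    by_cases hnb : ∃ a ∈ C, R v a
    · obtain ⟨a0, ha0, hva0⟩ := hnb
      have hpair : ∃ p ∈ C, ∃ r ∈ C, R p r ∧ R v r ∧ ¬ R v p := by
        have hz : ∀ z, Relation.ReflTransGen S b0 z → R v z →
            ∃ p ∈ C, ∃ r ∈ C, R p r ∧ R v r ∧ ¬ R v p := by
          intro z hz
          induction hz with
          | refl => exact fun h => absurd h hvb0
          | @tail b d hb hbd ih =>
            intro hvd
            have hbC : b ∈ C := by
              refine (hCm b).2 ⟨?_, hb⟩
              rcases Relation.ReflTransGen.cases_tail hb with h | ⟨e, -, he⟩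
              · rw [h]
                exact hb0
              · exact he.2
            have hdC : d ∈ C := hcl b hbC d hbd.2 hbd.1
            by_cases hvb : R v b
            · exact ih hvb
            · exact ⟨b, hbC, d, hdC, hbd.1, hvd, hvb⟩
        exact hz a0 ((hCm a0).1 ha0).2 hva0
      obtain ⟨p, hp, r, hr, hpr, hvr, hvp⟩ := hpair
      have hrest : ∀ c ∈ G \ C, ¬ R v c := by
        intro c hc hvc
        exact hn c v r p (hs _ _ hvc) hvr (hs _ _ hpr) (fun h => hsep r hr c hc (hs _ _ h))
          (fun h => hsep p hp c hc (hs _ _ h)) hvp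
      refine ⟨G \ C, insert v C, hprop, Finset.insert_nonempty v C, ?_, ?_, Or.inr ?_⟩
      · rw [Finset.disjoint_left]
        intro x hx hx2
        rw [Finset.mem_sdiff] at hx
        rcases Finset.mem_insert.1 hx2 with h | h
        · rw [h] at hx
          exact hv hx.1
        · exact hx.2 h
      · ext x
        simp only [Finset.mem_union, Finset.mem_sdiff, Finset.mem_insert]
        constructor
        · rintro (h | h | h)
          · exact Or.inr h.1
          · exact Or.inl h
          · exact Or.inr (hCG h)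
        · rintro (h | h)
          · exact Or.inr (Or.inl h)
          · by_cases hxC : x ∈ C
            · exact Or.inr (Or.inr hxC)
            · exact Or.inl ⟨h, hxC⟩
      · intro u hu w hw huw
        rcases Finset.mem_insert.1 hw with h | h
        · rw [h] at huw
          exact hrest u hu (hs _ _ huw)
        · exact hsep w h u hu (hs _ _ huw)
    · push Not at hnb
      refine ⟨C, insert v (G \ C), ⟨b0, hb0C⟩, Finset.insert_nonempty _ _, ?_, ?_, Or.inr ?_⟩
      · rw [Finset.disjoint_left]
        intro x hx hx2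
        rcases Finset.mem_insert.1 hx2 with h | h
        · rw [h] at hx
          exact hvC hx
        · exact (Finset.mem_sdiff.1 h).2 hx
      · ext x
        simp only [Finset.mem_union, Finset.mem_sdiff, Finset.mem_insert]
        constructor
        · rintro (h | h | h)
          · exact Or.inr (hCG h)
          · exact Or.inl h
          · exact Or.inr h.1
        · rintro (h | h)
          · exact Or.inr (Or.inl h)
          · by_cases hxC : x ∈ C
            · exact Or.inl hxC
            · exact Or.inr (Or.inr ⟨h, hxC⟩)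
      · intro u hu w hw huw
        rcases Finset.mem_insert.1 hw with h | h
        · rw [h] at huw
          exact hnb u hu (hs _ _ huw)
        · exact hsep u hu w h huw

private theorem seinscheAux (n : ℕ) : ∀ R : ℕ → ℕ → Prop, (∀ u v, R u v → R v u) → NoP R →
    ∀ F : Finset ℕ, F.card = n + 2 →
    ∃ F₁ F₂ : Finset ℕ, F₁.Nonempty ∧ F₂.Nonempty ∧ Disjoint F₁ F₂ ∧ F₁ ∪ F₂ = F ∧
      ((∀ u ∈ F₁, ∀ v ∈ F₂, R u v) ∨ ∀ u ∈ F₁, ∀ v ∈ F₂, ¬ R u v) := by
  classical
  induction n with
  | zero =>
    intro R hs hn F hF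
    obtain ⟨x, y, hxy, rfl⟩ := Finset.card_eq_two.1 hF
    refine ⟨{x}, {y}, Finset.singleton_nonempty x, Finset.singleton_nonempty y, ?_, rfl, ?_⟩
    · rw [Finset.disjoint_singleton]
      exact hxy
    · by_cases h : R x y
      · left
        intro u hu w hw
        rw [Finset.mem_singleton] at hu hw
        rw [hu, hw]
        exact h
      · right
        intro u hu w hw
        rw [Finset.mem_singleton] at hu hw
        rw [hu, hw]
        exact h
  | succ n ih =>
    intro R hs hn F hF
    have hne : F.Nonempty := by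
      rw [← Finset.card_pos]
      omega
    obtain ⟨v, hv⟩ := hne
    have hcard : (F.erase v).card = n + 2 := by
      rw [Finset.card_erase_of_mem hv]
      omega
    obtain ⟨G₁, G₂, h1, h2, hd, hU, hE⟩ := ih R hs hn (F.erase v) hcard
    have hins : insert v (F.erase v) = F := Finset.insert_erase hv
    rcases hE with hE | hE
    · obtain ⟨F₁, F₂, k1, k2, kd, kU, kE⟩ := keyStep (R := Co R) (co_symm hs) (co_noP hs hn) v
        (F.erase v) G₁ G₂ (Finset.notMem_erase v F) h1 h2 hd hU
        (fun u hu w hw h => h.2 (hE u hu w hw))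
      refine ⟨F₁, F₂, k1, k2, kd, kU.trans hins, ?_⟩
      rcases kE with h | h
      · right
        intro u hu w hw
        exact (h u hu w hw).2
      · left
        intro u hu w hw
        by_contra h3
        refine h u hu w hw ⟨?_, h3⟩
        rintro rfl
        exact (Finset.disjoint_left.1 kd) hu hw
    · obtain ⟨F₁, F₂, k1, k2, kd, kU, kE⟩ := keyStep hs hn v
        (F.erase v) G₁ G₂ (Finset.notMem_erase v F) h1 h2 hd hU hE
      exact ⟨F₁, F₂, k1, k2, kd, kU.trans hins, kE⟩

theorem seinsche (hs : ∀ u v, R u v → R v u) (hn : NoP R) (F : Finset ℕ) (hF : 2 ≤ F.card) :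
    ∃ F₁ F₂ : Finset ℕ, F₁.Nonempty ∧ F₂.Nonempty ∧ Disjoint F₁ F₂ ∧ F₁ ∪ F₂ = F ∧
      ((∀ u ∈ F₁, ∀ v ∈ F₂, R u v) ∨ ∀ u ∈ F₁, ∀ v ∈ F₂, ¬ R u v) := by
  obtain ⟨n, hn2⟩ : ∃ n, F.card = n + 2 := ⟨F.card - 2, by omega⟩
  exact seinscheAux n R hs hn F hn2

end Pool.H22.DE
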