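import Pool.Agent.H22.DE.Cv
import Pool.Agent.H22.DE.Sei

/-!
# Graphs without induced path with four vertices have no entangled sets (module SEW)

`width_of_noP`: `Width (toSt y) 1`: by induction on the size of `F` all finite nonempty sets `F` are
`Displayed x 1 F' F` for every finite `F' ⊇ F` for which `F` is a module (all elements of `F` are alike with respect to
every element of `F' \ F`): `F` is a singleton, or the union of two sets by `seinsche`, which are modules of
`F'` too. `noent_of_noP`: `noent_of_width`.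
-/

set_option autoImplicit false

namespace Pool.H22.DE

open Set Function Pool.H22.D Pool.H63.DC

variable {R : ℕ → ℕ → Prop}

private theorem sew_alike {y : Mx (Fin 1 → Bool)} (hy : ∀ u v, y u v 0 = true ↔ R u v)
    (hs : ∀ u v, R u v → R v u) {u v w : ℕ} (h : R u w ↔ R v w) :
    Pool.H17.W.Hi.Alike (toSt y) u v w := by
  intro i
  rw [Subsingleton.elim i 0]
  have h1 : y u w 0 = y v w 0 := by
    rw [Bool.eq_iff_iff, hy, hy]
    exact h
  have h2 : y w u 0 = y w v 0 := by
    rw [Bool.eq_iff_iff, hy, hy]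
    exact ⟨fun h3 => hs _ _ (h.1 (hs _ _ h3)), fun h3 => hs _ _ (h.2 (hs _ _ h3))⟩
  exact ⟨h1, h2⟩

private theorem sew_main {y : Mx (Fin 1 → Bool)} (hy : ∀ u v, y u v 0 = true ↔ R u v)
    (hs : ∀ u v, R u v → R v u) (hn : NoP R) (F' : Set ℕ) (F : Finset ℕ) (hne : F.Nonempty)
    (hF : (F : Set ℕ) ⊆ F')
    (hm : ∀ u ∈ F, ∀ v ∈ F, ∀ w ∈ F' \ F, Pool.H17.W.Hi.Alike (toSt y) u v w) :
    Pool.H17.W.Hi.Displayed (toSt y) 1 F' F := by
  obtain ⟨c, hc⟩ : ∃ c, c = F.card := ⟨_, rfl⟩
  induction c using Nat.strong_induction_on generalizing F with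
  | _ c ih =>
  rcases Nat.lt_or_ge F.card 2 with h2 | h2
  · have h1 : F.card = 1 := by
      have := hne.card_pos
      omega
    obtain ⟨v, rfl⟩ := Finset.card_eq_one.1 h1
    rw [Finset.coe_singleton]
    exact .single v (hF (by simp))
  · obtain ⟨F₁, F₂, hn1, hn2, hd, hu, hR⟩ := seinsche hs hn F h2
    have hs1 : F₁ ⊆ F := by
      rw [← hu]
      exact Finset.subset_union_left
    have hs2 : F₂ ⊆ F := by
      rw [← hu]
      exact Finset.subset_union_right
    have hc' : F₁.card + F₂.card = F.card := by rw [← hu, Finset.card_union_of_disjoint hd]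
    have hp1 := hn1.card_pos
    have hp2 := hn2.card_pos
    have hD1 : Pool.H17.W.Hi.Displayed (toSt y) 1 F' F₁ := by
      refine ih F₁.card (by omega) F₁ hn1 ((Finset.coe_subset.2 hs1).trans hF) ?_ rfl
      intro u hu1 v hv1 w hw
      by_cases hwF : w ∈ F
      · have hw2 : w ∈ F₂ := by
          rw [← hu, Finset.mem_union] at hwF
          exact hwF.resolve_left fun h => hw.2 (Finset.mem_coe.2 h)
        apply sew_alike hy hs
        rcases hR with hR | hR
        · exact ⟨fun _ => hR v hv1 w hw2, fun _ => hR u hu1 w hw2⟩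
        · exact ⟨fun h => absurd h (hR u hu1 w hw2), fun h => absurd h (hR v hv1 w hw2)⟩
      · exact hm u (hs1 hu1) v (hs1 hv1) w ⟨hw.1, fun h => hwF (Finset.mem_coe.1 h)⟩
    have hD2 : Pool.H17.W.Hi.Displayed (toSt y) 1 F' F₂ := by
      refine ih F₂.card (by omega) F₂ hn2 ((Finset.coe_subset.2 hs2).trans hF) ?_ rfl
      intro u hu1 v hv1 w hw
      by_cases hwF : w ∈ F
      · have hw2 : w ∈ F₁ := by
          rw [← hu, Finset.mem_union] at hwF
          exact hwF.resolve_right fun h => hw.2 (Finset.mem_coe.2 h)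
        apply sew_alike hy hs
        rcases hR with hR | hR
        · exact ⟨fun _ => hs _ _ (hR w hw2 v hv1), fun _ => hs _ _ (hR w hw2 u hu1)⟩
        · exact ⟨fun h => absurd (hs _ _ h) (hR w hw2 u hu1),
            fun h => absurd (hs _ _ h) (hR w hw2 v hv1)⟩
      · exact hm u (hs2 hu1) v (hs2 hv1) w ⟨hw.1, fun h => hwF (Finset.mem_coe.1 h)⟩
    have he : (F : Set ℕ) = (F₁ : Set ℕ) ∪ (F₂ : Set ℕ) := by
      rw [← hu, Finset.coe_union]
    rw [he]
    refine .union _ _ hD1 hD2 (Finset.disjoint_coe.2 hd) ?_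
    rw [← he]
    obtain ⟨t, ht⟩ := hne
    refine ⟨{t}, ?_, ?_, fun u hu1 => ⟨t, Finset.mem_singleton_self t, fun w hw => ?_⟩⟩
    · rw [Finset.coe_singleton, singleton_subset_iff]
      exact Finset.mem_coe.2 ht
    · rw [Finset.card_singleton]
    · exact hm u (Finset.mem_coe.1 hu1) t ht w hw

theorem width_of_noP {y : Mx (Fin 1 → Bool)} (hy : ∀ u v, y u v 0 = true ↔ R u v)
    (hs : ∀ u v, R u v → R v u) (hn : NoP R) : Pool.H17.W.Hi.Width (toSt y) 1 := by
  intro F hF hne
  obtain ⟨F, rfl⟩ := hF.exists_finset_coe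
  exact sew_main hy hs hn _ F (Finset.coe_nonempty.1 hne) subset_rfl
    fun u _ v _ w hw => absurd hw.1 hw.2

theorem noent_of_noP {y : Mx (Fin 1 → Bool)} (hy : ∀ u v, y u v 0 = true ↔ R u v)
    (hs : ∀ u v, R u v → R v u) (hn : NoP R) (S : Set ℕ) : ¬ Ent y S :=
  noent_of_width (width_of_noP hy hs hn) S

end Pool.H22.DE
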