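import Pool.Agent.H22.DE.KdA
import Pool.Agent.H22.DE.Sew
import Pool.Agent.H22.DE.Gf
import Pool.Agent.H63.DC.Hfc

/-!
# Classes without entangled sets, II (module KE)

`ent_cop`: the complement has the same entangled sets (for `u, v ∈ A`, `w ∉ A`: `Alk` for `y` and for `cop y` are the
same). `hf_noent`: if `H` is an induced subgraph of the path with four vertices then members have no induced
path with four vertices (as in `induced_dichotomy`, `H63/DC/Hfc.lean`): `noent_of_noP`. Otherwise (`cls`, `Hfb.lean`) `H` or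
its complement is not contained in `Stars`; `gf_noent` for `{H}` or `{Hᶜ}` gives a graph without subgraph `H` (or
`Hᶜ`) with an entangled set, it (or its complement: `hf_cop`, `ent_cop`) is in `Hf H`. `cf_noent`: if `f` does not tend
to infinity: `sparse_of_bdd` (`H5/TS/Bdd.lean`, as in `profile_dichotomy`), `noent_of_sparse`; otherwise `exists_entG`.
-/

set_option autoImplicit false

namespace Pool.H22.DE

open Set Function Pool.H22.D Pool.H63.DC Pool.H5.TS

theorem ent_cop {y : Mx (Fin 1 → Bool)} {S : Set ℕ} (h : Ent y S) : Ent (cop y) S := by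
  have h1 : ∀ A : Set ℕ, ∀ u ∈ A, ∀ v ∈ A, ∀ w, w ∉ A → (Alk y u v w ↔ Alk (cop y) u v w) := by
    intro A u hu v hv w hw
    have e1 : u ≠ w := fun h => hw (h ▸ hu)
    have e2 : v ≠ w := fun h => hw (h ▸ hv)
    have c1 : cop y u w 0 = !(y u w 0) := by
      show (decide (u ≠ w) && !(y u w 0)) = _
      rw [decide_eq_true e1, Bool.true_and]
    have c2 : cop y v w 0 = !(y v w 0) := by
      show (decide (v ≠ w) && !(y v w 0)) = _
      rw [decide_eq_true e2, Bool.true_and]
    have c3 : cop y w u 0 = !(y w u 0) := by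
      show (decide (w ≠ u) && !(y w u 0)) = _
      rw [decide_eq_true e1.symm, Bool.true_and]
    have c4 : cop y w v 0 = !(y w v 0) := by
      show (decide (w ≠ v) && !(y w v 0)) = _
      rw [decide_eq_true e2.symm, Bool.true_and]
    have key : ∀ p q : Fin 1 → Bool, p = q ↔ p 0 = q 0 := by
      intro p q
      constructor
      · rintro rfl
        rfl
      · intro h
        funext i
        rw [Subsingleton.elim i 0]
        exact h
    unfold Alk
    rw [key (y u w) (y v w), key (y w u) (y w v), key (cop y u w) (cop y v w),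
      key (cop y w u) (cop y w v), c1, c2, c3, c4, Bool.not_inj_iff, Bool.not_inj_iff]
  refine ⟨h.1, fun A hA hi u hu v hv huv => ?_⟩
  have hA' : Fcl y A := by
    obtain ⟨C, hC, hC'⟩ := hA
    refine ⟨C, hC, fun u hu => ?_⟩
    obtain ⟨v, hv, huv⟩ := hC' u hu
    exact ⟨v, hv, fun w hw => (h1 A u hu v (hC hv) w hw).2 (huv w hw)⟩
  obtain ⟨w, hw, hn⟩ := h.2 A hA' hi u hu v hv huv
  exact ⟨w, hw, fun hc => hn ((h1 A u hu.2 v hv.2 w hw).2 hc)⟩

theorem hf_noent {n : ℕ} (H : SimpleGraph (Fin n)) :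
    H.IsIndContained (SimpleGraph.pathGraph 4) ↔ ∀ y ∈ Hf H, ∀ S, ¬ Ent y S := by
  constructor
  · rintro ⟨f⟩ y ⟨G, hG, hGH⟩ S
    refine noent_of_noP (R := fun u v => G.Adj u v) hG (fun u v h => h.symm) ?_ S
    intro a b c d hab hbc hcd hac had hbd
    apply hGH
    have hirr : ∀ i, ¬ G.Adj i i := fun i => G.loopless.irrefl i
    have e1 := hab.symm
    have e2 := hbc.symm
    have e3 := hcd.symm
    have e4 : ¬ G.Adj c a := fun h => hac h.symm
    have e5 : ¬ G.Adj d a := fun h => had h.symm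
    have e6 : ¬ G.Adj d b := fun h => hbd h.symm
    have n1 : a ≠ b := G.ne_of_adj hab
    have n2 : b ≠ c := G.ne_of_adj hbc
    have n3 : c ≠ d := G.ne_of_adj hcd
    have n4 : a ≠ c := by
      rintro rfl
      exact had hcd
    have n5 : a ≠ d := by
      rintro rfl
      exact hac hcd.symm
    have n6 : b ≠ d := by
      rintro rfl
      exact had hab
    let g : SimpleGraph.pathGraph 4 ↪g G := ⟨⟨![a, b, c, d], by
      intro i j hij
      fin_cases i <;> fin_cases j <;> simp_all⟩, by
      intro i j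
      show G.Adj ((![a, b, c, d] : Fin 4 → ℕ) i) ((![a, b, c, d] : Fin 4 → ℕ) j) ↔
        (SimpleGraph.pathGraph 4).Adj i j
      rw [SimpleGraph.pathGraph_adj]
      fin_cases i <;> fin_cases j <;> simp [*]⟩
    exact ⟨g.comp f⟩
  · intro h
    have key : ∀ K : SimpleGraph (Fin n), ¬ K.IsContained Stars → ∃ y ∈ Hf K, ∃ S, Ent y S := by
      intro K hK
      have h1 := (gf_noent (F := {(⟨n, K⟩ : Σ n : ℕ, SimpleGraph (Fin n))}) (finite_singleton _)).not
      have h2 : ¬ ∃ H ∈ ({(⟨n, K⟩ : Σ n : ℕ, SimpleGraph (Fin n))} : Set (Σ n : ℕ, SimpleGraph (Fin n))),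
          H.2.IsContained Stars := by
        rintro ⟨H, hH, hc⟩
        rw [mem_singleton_iff] at hH
        subst hH
        exact hK hc
      have h3 := h1.1 h2
      push Not at h3
      obtain ⟨y, ⟨G, hG, hGF⟩, S, hS⟩ := h3
      refine ⟨y, ⟨G, hG, fun hc => hGF ⟨n, K⟩ (mem_singleton _) ?_⟩, S, hS⟩
      exact hc.isContained
    by_cases h1 : H.IsContained Stars
    · by_cases h2 : Hᶜ.IsContained Stars
      · exact cls h1 h2
      · obtain ⟨y, hy, S, hS⟩ := key Hᶜ h2
        exact absurd (ent_cop hS) (h _ (hf_cop y hy).2.1 S)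
    · obtain ⟨y, hy, S, hS⟩ := key H h1
      exact absurd hS (h y hy S)

theorem cf_noent (f : ℕ → ℕ) :
    ¬ Filter.Tendsto f Filter.atTop Filter.atTop ↔ ∀ y ∈ Cf f, ∀ S, ¬ Ent y S := by
  constructor
  · intro h y hy S
    rw [Filter.tendsto_atTop_atTop] at h
    push Not at h
    obtain ⟨c, hc⟩ := h
    refine noent_of_sparse (sparse_of_bdd (c := c) (fun N => ?_) hy) S
    obtain ⟨r, hr1, hr2⟩ := hc N
    exact ⟨r, hr1, hr2.le⟩
  · intro h hf
    obtain ⟨y, hy, S, hS⟩ := exists_entG hf
    exact h y hy S hS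

end Pool.H22.DE
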