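import Pool.Agent.H22.DE.Df

/-!
# Subdivisions of the infinite complete graph are entangled (module EPT)

`ent_of_paths`: let `A` have finitely many classes, `s i, s j ∈ A`, `i ≠ j`, not distinguished by elements outside
`A`, and `K` the infinite set of the `k` with `s k ∉ A` (so `k ≠ i`). For `k ∈ K` let `q` be the path from
`s i` to `s k` (`x i k` or `x k i` backwards), with `R ≥ 2` steps. `q 1 ∈ A` : otherwise `q 1` distinguishes `s i`
(related: `hE`) and `s j` (not related: `hps`, `k ≠ j`). `q R = s k ∉ A`. So there is `1 ≤ c < R` with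
`p k = q c ∈ A` and `p' k = q (c + 1) ∉ A`. For `k ≠ k'` in `K` the points `p k`, `p k'` are distinguished by `p' k`: `p k`
and `p' k` are related, `p k'` and `p' k` are not (`hpp` if `p' k` is an inner point, `hps` if `p' k = s k`: `k ≠ i`,
`k ≠ k'`). So the infinitely many `p k` are in different classes: contradiction.
-/

set_option autoImplicit false

namespace Pool.H22.DE

open Set Function Pool.H22.D

variable {T : Type}

/-- an inner point of the path between `s i` and `s k` -/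
private def Inn (r : ℕ → ℕ → ℕ) (x : ℕ → ℕ → ℕ → ℕ) (i k p : ℕ) : Prop :=
  ∃ a b c, a < b ∧ ((a = i ∧ b = k) ∨ (a = k ∧ b = i)) ∧ 0 < c ∧ c < r a b ∧ p = x a b c

private theorem nd_symm {δ : T} {y : Mx T} {u v : ℕ} (h : Nd δ y u v) : Nd δ y v u :=
  ⟨h.1.symm, h.2.symm⟩

private theorem nd_alk {δ : T} {y : Mx T} {u v w : ℕ} (h : Nd δ y u w) (ha : Alk y u v w) (hv : v ≠ w) :
    Nd δ y v w := by
  refine ⟨hv, ?_⟩
  rcases h.2 with h1 | h1
  · left
    rw [← ha.1]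
    exact h1
  · right
    rw [← ha.2]
    exact h1

private theorem pth_f1 {δ : T} {y : Mx T} {r : ℕ → ℕ → ℕ} {x : ℕ → ℕ → ℕ → ℕ}
    (hpp : ∀ i j c i' j' c', i < j → i' < j' → (i, j) ≠ (i', j') → 0 < c → c < r i j → 0 < c' →
      c' < r i' j' → x i j c ≠ x i' j' c' ∧ ¬ Nd δ y (x i j c) (x i' j' c'))
    {i k k' p p' : ℕ} (hk : k ≠ i) (hk' : k' ≠ i) (hkk : k ≠ k') (h1 : Inn r x i k p) (h2 : Inn r x i k' p') :
    ¬ Nd δ y p p' := by
  obtain ⟨a, b, c, hab, e1, hc, hc', rfl⟩ := h1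
  obtain ⟨a', b', c₁, hab', e2, hc₁, hc₁', rfl⟩ := h2
  refine (hpp a b c a' b' c₁ hab hab' ?_ hc hc' hc₁ hc₁').2
  intro e
  rw [Prod.mk.injEq] at e
  obtain ⟨ea, eb⟩ := e
  rcases e1 with ⟨e3, e4⟩ | ⟨e3, e4⟩
  · rcases e2 with ⟨e5, e6⟩ | ⟨e5, e6⟩
    · exact hkk (by rw [← e4, eb, e6])
    · exact hk (by rw [← e4, eb, e6])
  · rcases e2 with ⟨e5, e6⟩ | ⟨e5, e6⟩
    · exact hk (by rw [← e3, ea, e5])
    · exact hkk (by rw [← e3, ea, e5])

private theorem pth_f2 {δ : T} {y : Mx T} {s : ℕ → ℕ} {r : ℕ → ℕ → ℕ} {x : ℕ → ℕ → ℕ → ℕ}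
    (hps : ∀ i j c k, i < j → 0 < c → c < r i j →
      x i j c ≠ s k ∧ (k ≠ i → k ≠ j → ¬ Nd δ y (x i j c) (s k)))
    {i k p l : ℕ} (h1 : Inn r x i k p) : p ≠ s l ∧ (l ≠ i → l ≠ k → ¬ Nd δ y p (s l)) := by
  obtain ⟨a, b, c, hab, e1, hc, hc', rfl⟩ := h1
  refine ⟨(hps a b c l hab hc hc').1, fun hi hk => ?_⟩
  refine (hps a b c l hab hc hc').2 ?_ ?_
  · rcases e1 with ⟨e3, e4⟩ | ⟨e3, e4⟩
    · rw [e3]; exact hi
    · rw [e3]; exact hk
  · rcases e1 with ⟨e3, e4⟩ | ⟨e3, e4⟩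
    · rw [e4]; exact hk
    · rw [e4]; exact hi

private theorem pth_q {δ : T} {y : Mx T} {s : ℕ → ℕ} {r : ℕ → ℕ → ℕ} {x : ℕ → ℕ → ℕ → ℕ}
    (hr : ∀ i j, i < j → 2 ≤ r i j) (h0 : ∀ i j, i < j → x i j 0 = s i)
    (h1 : ∀ i j, i < j → x i j (r i j) = s j)
    (hE : ∀ i j c, i < j → c < r i j → Nd δ y (x i j c) (x i j (c + 1))) {i k : ℕ} (hk : k ≠ i) :
    ∃ (q : ℕ → ℕ) (R : ℕ), 2 ≤ R ∧ q 0 = s i ∧ q R = s k ∧ (∀ c, c < R → Nd δ y (q c) (q (c + 1))) ∧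
      ∀ c, 0 < c → c < R → Inn r x i k (q c) := by
  rcases lt_or_gt_of_ne hk with hlt | hlt
  · refine ⟨fun c => x k i (r k i - c), r k i, hr k i hlt, ?_, ?_, ?_, ?_⟩
    · change x k i (r k i - 0) = s i
      rw [Nat.sub_zero, h1 k i hlt]
    · change x k i (r k i - r k i) = s k
      rw [Nat.sub_self, h0 k i hlt]
    · intro c hc
      change Nd δ y (x k i (r k i - c)) (x k i (r k i - (c + 1)))
      have h2 := hE k i (r k i - (c + 1)) hlt (by omega)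
      have e : r k i - (c + 1) + 1 = r k i - c := by omega
      rw [e] at h2
      exact nd_symm h2
    · intro c hc hc'
      exact ⟨k, i, r k i - c, hlt, Or.inr ⟨rfl, rfl⟩, by omega, by omega, rfl⟩
  · refine ⟨fun c => x i k c, r i k, hr i k hlt, h0 i k hlt, h1 i k hlt, fun c hc => hE i k c hlt hc, ?_⟩
    intro c hc hc'
    exact ⟨i, k, c, hlt, Or.inl ⟨rfl, rfl⟩, hc, hc', rfl⟩

theorem ent_of_paths (δ : T) {y : Mx T} {s : ℕ → ℕ} {r : ℕ → ℕ → ℕ} {x : ℕ → ℕ → ℕ → ℕ}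
    (hs : Injective s) (hr : ∀ i j, i < j → 2 ≤ r i j) (h0 : ∀ i j, i < j → x i j 0 = s i)
    (h1 : ∀ i j, i < j → x i j (r i j) = s j)
    (hE : ∀ i j c, i < j → c < r i j → Nd δ y (x i j c) (x i j (c + 1)))
    (hpp : ∀ i j c i' j' c', i < j → i' < j' → (i, j) ≠ (i', j') → 0 < c → c < r i j → 0 < c' →
      c' < r i' j' → x i j c ≠ x i' j' c' ∧ ¬ Nd δ y (x i j c) (x i' j' c'))
    (hps : ∀ i j c k, i < j → 0 < c → c < r i j →
      x i j c ≠ s k ∧ (k ≠ i → k ≠ j → ¬ Nd δ y (x i j c) (s k))) :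
    Ent y (range s) := by
  classical
  refine ⟨Set.infinite_range_of_injective hs, ?_⟩
  intro A hA hinf u hu v hv huv
  by_contra hcon
  push Not at hcon
  obtain ⟨⟨i, rfl⟩, hiA⟩ := hu
  obtain ⟨⟨j, rfl⟩, hjA⟩ := hv
  have hij : j ≠ i := fun h => huv (by rw [h])
  obtain ⟨K, hK⟩ : ∃ K : Set ℕ, K = {k | s k ∉ A} := ⟨_, rfl⟩
  have hKinf : K.Infinite := by
    refine Set.Infinite.of_image s (hinf.mono ?_)
    rintro _ ⟨⟨k, rfl⟩, hk⟩
    exact ⟨k, by rw [hK]; exact hk, rfl⟩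
  have hKi : ∀ k ∈ K, k ≠ i := by
    intro k hk h
    rw [hK, h] at hk
    exact hk hiA
  have hKj : ∀ k ∈ K, j ≠ k := by
    intro k hk h
    rw [hK, ← h] at hk
    exact hk hjA
  have key : ∀ k : ℕ, ∃ p p' : ℕ, k ∈ K → p ∈ A ∧ p' ∉ A ∧ Nd δ y p p' ∧ Inn r x i k p ∧
      (Inn r x i k p' ∨ p' = s k) := by
    intro k
    by_cases hk : k ∈ K
    swap
    · exact ⟨0, 0, fun h => absurd h hk⟩
    have hkA : s k ∉ A := by rw [hK] at hk; exact hk
    obtain ⟨q, R, hR, q0, q1, q2, q3⟩ := pth_q hr h0 h1 hE (hKi k hk)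
    have hq1 : q 1 ∈ A := by
      by_contra h2
      have h3 := hcon (q 1) h2
      have h4 := q2 0 (by omega)
      rw [q0, zero_add] at h4
      have h5 := pth_f2 hps (q3 1 (by omega) (by omega)) (l := j)
      exact h5.2 hij (hKj k hk) (nd_symm (nd_alk h4 h3 h5.1.symm))
    have hex : ∃ c, 1 ≤ c ∧ q (c + 1) ∉ A := by
      refine ⟨R - 1, by omega, ?_⟩
      have e : R - 1 + 1 = R := by omega
      rw [e, q1]
      exact hkA
    obtain ⟨c, hc⟩ : ∃ c, c = Nat.find hex := ⟨_, rfl⟩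
    have hc1 : 1 ≤ c ∧ q (c + 1) ∉ A := by rw [hc]; exact Nat.find_spec hex
    have hcR : c < R := by
      have h2 : c ≤ R - 1 := by
        rw [hc]
        refine Nat.find_min' hex ⟨by omega, ?_⟩
        have e : R - 1 + 1 = R := by omega
        rw [e, q1]
        exact hkA
      omega
    have hcA : q c ∈ A := by
      rcases eq_or_lt_of_le hc1.1 with h2 | h2
      · rw [← h2]
        exact hq1
      · have h3 := Nat.find_min hex (m := c - 1) (by rw [← hc]; omega)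
        rw [not_and, not_not] at h3
        have h4 := h3 (by omega)
        have e : c - 1 + 1 = c := by omega
        rwa [e] at h4
    refine ⟨q c, q (c + 1), fun _ => ⟨hcA, hc1.2, q2 c hcR, q3 c (by omega) hcR, ?_⟩⟩
    rcases eq_or_lt_of_le (Nat.succ_le_of_lt hcR) with h2 | h2
    · right
      have e : c + 1 = R := h2
      rw [e, q1]
    · left
      exact q3 (c + 1) (by omega) h2
  choose p p' hp using key
  obtain ⟨C, hC, hC'⟩ := hA
  have key2 : ∀ k : ℕ, ∃ v : ℕ, k ∈ K → v ∈ C ∧ ∀ w, w ∉ A → Alk y (p k) v w := by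
    intro k
    by_cases hk : k ∈ K
    · obtain ⟨v, hv, hv'⟩ := hC' (p k) (hp k hk).1
      exact ⟨v, fun _ => ⟨hv, hv'⟩⟩
    · exact ⟨0, fun h => absurd h hk⟩
  choose v hv using key2
  obtain ⟨k, hk, k', hk', hne, he⟩ := hKinf.exists_ne_map_eq_of_mapsTo (f := v) (t := (C : Set ℕ))
    (fun k hk => (hv k hk).1) C.finite_toSet
  obtain ⟨a1, a2, a3, a4, a5⟩ := hp k hk
  obtain ⟨b1, b2, b3, b4, b5⟩ := hp k' hk'
  have h2 := (hv k hk).2 (p' k) a2
  have h3 := (hv k' hk').2 (p' k) a2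
  rw [← he] at h3
  have h4 : Alk y (p k) (p k') (p' k) := ⟨h2.1.trans h3.1.symm, h2.2.trans h3.2.symm⟩
  have h5 : Nd δ y (p k') (p' k) := nd_alk a3 h4 (fun h => a2 (h ▸ b1))
  rcases a5 with h6 | h6
  · exact pth_f1 hpp (hKi k' hk') (hKi k hk) hne.symm b4 h6 h5
  · rw [h6] at h5
    exact (pth_f2 hps b4).2 (hKi k hk) hne h5

end Pool.H22.DE
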